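import Mathlib
import Pool.Agent.Par4.Pos
import Pool.Agent.Par4.NegGeneral

/-!
# The partition relation `lam → (κ, 5)⁴` holds exactly for `lam > 2 ^ (2 ^< κ)`

Here `κ = ℵ_{ω₁}`, or any singular cardinal whose cofinality is at most `2 ^ τ` for some `τ` below
the cofinality. The colouring witnessing the negative relation at `2 ^ (2 ^< κ)` is new
(`Pool/Agent/Par4/NegGeneral.lean`); the positive relation above it is the classical stepping up
(Erdős–Dushnik–Miller, Erdős–Rado).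
-/

open Cardinal Ordinal Order
open Pool.Agent.Par4 (Arrow)

universe u

namespace Pool.Agent.Results.MP_d0bad0_lc.Threshold

theorem powerlt_le_of_gch (h : ∀ o : Ordinal.{u}, (2 : Cardinal.{u}) ^ ℵ_ o = ℵ_ (o + 1)) :
    (2 : Cardinal.{u}) ^< ℵ_ (ω_ 1) ≤ ℵ_ (ω_ 1) := by
  refine powerlt_le.2 fun c hc => ?_
  obtain ⟨o, ho, hco⟩ : ∃ o < ω_ 1, c ≤ ℵ_ o := by
    rcases lt_or_ge c ℵ₀ with h | h
    · exact ⟨0, omega_pos 1, h.le.trans (aleph0_le_aleph _)⟩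
    · obtain ⟨o, rfl⟩ := mem_range_aleph_iff.2 h
      exact ⟨o, aleph_lt_aleph.1 hc, le_rfl⟩
  refine (power_le_power_left two_ne_zero hco).trans ?_
  rw [h o]
  exact aleph_le_aleph.2 ((isSuccLimit_omega 1).add_one_lt ho).le

/-- the relation is monotone in the first cardinal -/
theorem arrow_mono {lam lam' κ : Cardinal.{u}} (h : Arrow lam 4 κ 5) (hle : lam ≤ lam') :
    Arrow lam' 4 κ 5 := by
  classical
  intro X hX f
  obtain ⟨p, hp⟩ := le_mk_iff_exists_set.1 (hX ▸ hle : lam ≤ #X)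
  have hcard : ∀ s : {s : Finset p // s.card = 4},
      (s.1.map (Function.Embedding.subtype _)).card = 4 := fun s => by
    rw [Finset.card_map]; exact s.2
  rcases h p hp (fun s => f ⟨s.1.map (Function.Embedding.subtype _), hcard s⟩) with
    ⟨Y, h1, h2⟩ | ⟨Y, h1, h2⟩
  · refine Or.inl ⟨Subtype.val '' Y, by rw [mk_image_eq Subtype.val_injective, h1], ?_⟩
    intro s hs
    obtain ⟨s', hs'⟩ : ∃ s' : Finset p, s'.map (Function.Embedding.subtype _) = s.1 := by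
      refine ⟨s.1.subtype _, ?_⟩
      rw [Finset.subtype_map_of_mem]
      intro x hx
      obtain ⟨y, -, rfl⟩ := hs hx
      exact y.2
    have hcs : s'.card = 4 := by rw [← s.2, ← hs', Finset.card_map]
    have h3 := h2 ⟨s', hcs⟩ (by
      intro x hx
      have : x.1 ∈ (s.1 : Set X) := by
        rw [← hs']
        simpa using hx
      obtain ⟨y, hy, hxy⟩ := hs this
      rwa [← Subtype.ext hxy])
    simp only [hs'] at h3
    exact h3
  · refine Or.inr ⟨Subtype.val '' Y, by rw [mk_image_eq Subtype.val_injective, h1], ?_⟩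
    intro s hs
    obtain ⟨s', hs'⟩ : ∃ s' : Finset p, s'.map (Function.Embedding.subtype _) = s.1 := by
      refine ⟨s.1.subtype _, ?_⟩
      rw [Finset.subtype_map_of_mem]
      intro x hx
      obtain ⟨y, -, rfl⟩ := hs hx
      exact y.2
    have hcs : s'.card = 4 := by rw [← s.2, ← hs', Finset.card_map]
    have h3 := h2 ⟨s', hcs⟩ (by
      intro x hx
      have : x.1 ∈ (s.1 : Set X) := by
        rw [← hs']
        simpa using hx
      obtain ⟨y, hy, hxy⟩ := hs this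
      rwa [← Subtype.ext hxy])
    simp only [hs'] at h3
    exact h3

/-- the threshold for one cardinal -/
theorem threshold (κ τ : Cardinal.{u}) (hκ : κ.IsSingular) (h1 : τ < κ.ord.cof)
    (h2 : κ.ord.cof ≤ 2 ^ τ) (lam : Cardinal.{u}) :
    Arrow lam 4 κ 5 ↔ (2 : Cardinal.{u}) ^ ((2 : Cardinal.{u}) ^< κ) < lam := by
  constructor
  · intro h
    by_contra hcon
    rw [not_lt] at hcon
    have h3 := arrow_mono h hcon
    apply Pool.Agent.Par4Gen.general κ κ.ord.cof τ hκ.aleph0_le rfl hκ.cof_ord_lt h1 h2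
    intro X hX f
    rcases h3 X hX f with ⟨Y, h4, h5⟩ | ⟨Y, h4, h5⟩
    · exact ⟨0, Y, h4, h5⟩
    · exact ⟨1, Y, h4, h5⟩
  · intro h
    refine Pool.Agent.Par4.pos_general (lt_of_le_of_ne hκ.aleph0_le ?_) h
    rintro rfl
    exact not_isSingular_aleph0 hκ

theorem singular_aleph_omega_one : (ℵ_ (ω_ (1 : Ordinal.{u}))).IsSingular ∧
    (ℵ_ (ω_ (1 : Ordinal.{u}))).ord.cof = ℵ_ 1 := by
  have hcof : (ℵ_ (ω_ (1 : Ordinal.{u}))).ord.cof = ℵ_ 1 := by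
    rw [ord_aleph, cof_omega (isSuccLimit_omega 1), ← ord_aleph]
    exact isRegular_aleph_one.cof_ord
  refine ⟨⟨aleph0_le_aleph _, ?_⟩, hcof⟩
  rw [hcof]
  exact (aleph_lt_aleph.2 (lt_of_lt_of_le one_lt_omega0 (omega0_le_omega 1))).ne

/-- **Threshold theorem.** Let `κ = ℵ_{ω₁}`, or let `κ` be any singular cardinal with
`cf κ ≤ 2 ^ τ` for some `τ < cf κ`. In ZFC, `lam → (κ, 5)⁴` holds if and only if
`lam > 2 ^ (2 ^< κ)`; in particular `2 ^ (2 ^< κ) ↛ (κ, 5)⁴`. Consequently, under GCH both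
`2 ^ ℵ_{ω₁} > ℵ_{ω₁}` and `2 ^ (2 ^ ℵ_{ω₁}) > 2 ^ (2 ^ ℵ_α)` (`α < ω₁`) hold, and
`2 ^ (2 ^ ℵ_{ω₁}) → (ℵ_{ω₁}, 5)⁴`. -/
theorem result :
    (∀ κ : Cardinal.{u},
      (κ = ℵ_ (ω_ 1) ∨ (κ.IsSingular ∧ ∃ τ < κ.ord.cof, κ.ord.cof ≤ (2 : Cardinal.{u}) ^ τ)) →
      ∀ lam : Cardinal.{u},
        Arrow lam 4 κ 5 ↔ (2 : Cardinal.{u}) ^ ((2 : Cardinal.{u}) ^< κ) < lam) ∧
    ((∀ o : Ordinal.{u}, (2 : Cardinal.{u}) ^ ℵ_ o = ℵ_ (o + 1)) →
      ℵ_ (ω_ 1) < (2 : Cardinal.{u}) ^ ℵ_ (ω_ 1) ∧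
      (∀ α : Ordinal.{u}, α < ω_ 1 →
        (2 : Cardinal.{u}) ^ ((2 : Cardinal.{u}) ^ ℵ_ α) <
          (2 : Cardinal.{u}) ^ ((2 : Cardinal.{u}) ^ ℵ_ (ω_ 1))) ∧
      Arrow ((2 : Cardinal.{u}) ^ ((2 : Cardinal.{u}) ^ ℵ_ (ω_ 1))) 4 (ℵ_ (ω_ 1)) 5) := by
  have hω : ∀ lam : Cardinal.{u}, Arrow lam 4 (ℵ_ (ω_ 1)) 5 ↔
      (2 : Cardinal.{u}) ^ ((2 : Cardinal.{u}) ^< ℵ_ (ω_ 1)) < lam := by
    refine threshold (ℵ_ (ω_ 1)) ℵ₀ singular_aleph_omega_one.1 ?_ ?_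
    · rw [singular_aleph_omega_one.2]; exact aleph0_lt_aleph_one
    · rw [singular_aleph_omega_one.2, ← succ_aleph0]
      exact Order.succ_le_of_lt (cantor _)
  refine ⟨?_, fun h => ⟨cantor _, fun α hα => ?_, ?_⟩⟩
  · rintro κ (rfl | ⟨h1, τ, h2, h3⟩)
    · exact hω
    · exact threshold κ τ h1 h2 h3
  · rw [h, h, h, h]
    refine aleph_lt_aleph.2 ?_
    calc α + 1 + 1 < ω_ 1 := (isSuccLimit_omega 1).add_one_lt ((isSuccLimit_omega 1).add_one_lt hα)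
      _ < ω_ 1 + 1 := lt_add_one _
      _ < ω_ 1 + 1 + 1 := lt_add_one _
  · rw [hω]
    refine (power_le_power_left two_ne_zero (powerlt_le_of_gch h)).trans_lt ?_
    rw [h, h]
    exact aleph_lt_aleph.2 (lt_add_one _)

end Pool.Agent.Results.MP_d0bad0_lc.Threshold
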